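import Pool.Agent.Helper32.Murre.Coh

/-!
# Duals and products of Chow-Künneth decompositions
-/

universe u v w

open CategoryTheory AlgebraicGeometry Limits

namespace Pool.Agent.Helper32.Murre

open Pool.Agent.Helper10 Pool.Agent.Helper10.SmProjVar Pool.Agent.Helper47.Chow

variable {k : Type u} [Field k] {K : Type v} [Field K] [CharZero K]
  {W : WeilCohomology.{u, v, w} k K} {C : ChowTheory W}

variable {X Y : SmProjVar k} {π : ℕ → CH (X.prod X)} {π' : ℕ → CH (Y.prod Y)}

/-- The pairing of the projectors on homogeneous classes. -/
lemma pair_ck (h : C.IsCK X π) (i j : ℕ) (x : W.H X) (hx : x ∈ W.gr X j) (y : W.H X) :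
    pairH C x y (π i) = if i = j then W.tr X (x * y) else 0 := by
  split_ifs with hij
  · subst hij
    exact h.act_same i x hx y
  · exact h.act_other i j hij x hx y

/-- A criterion for the cohomological conditions. -/
lemma ck_of_pair (hp : ∀ i j, ∀ x ∈ W.gr X j, ∀ y : W.H X,
      pairH C x y (π i) = if i = j then W.tr X (x * y) else 0) :
    (∀ i, ∀ x ∈ W.gr X i, ∀ y : W.H X, W.tr (X.prod X)
      (W.pull (fst X X) x * C.ops.cl _ (π i) * W.pull (snd X X) y) = W.tr X (x * y)) ∧
    (∀ i j, i ≠ j → ∀ x ∈ W.gr X j, ∀ y : W.H X, W.tr (X.prod X)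
      (W.pull (fst X X) x * C.ops.cl _ (π i) * W.pull (snd X X) y) = 0) := by
  constructor
  · intro i x hx y
    exact (hp i i x hx y).trans (if_pos rfl)
  · intro i j hij x hx y
    exact (hp i j x hx y).trans (if_neg hij)

/-- The dual of a Chow-Künneth decomposition is a Chow-Künneth decomposition. -/
theorem dual_isCK (h : C.IsCK X π) : C.IsCK X (dual C X π) := by
  have hcoh := ck_of_pair (C := C) (π := dual C X π) (X := X) ?_
  · refine ⟨fun i => ?_, fun i hi => ?_, fun i => ?_, fun i j hij => ?_, ?_, hcoh.1, hcoh.2⟩
    · unfold dual
      split_ifs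
      · exact transpose_mem C (h.mem _)
      · exact (CHiL _ _).zero_mem
    · unfold dual
      rw [if_neg (by omega)]
    · unfold dual
      split_ifs
      · rw [← transpose_comp, h.idem]
      · exact C.comp_zero _
    · unfold dual
      split_ifs
      · rw [← transpose_comp, h.orth _ _ (by omega), transpose_zero]
      · exact C.comp_zero _
      · exact C.zero_comp _
      · exact C.comp_zero _
    · have h1 : ∑ i ∈ Finset.range (2 * X.dim + 1), dual C X π i =
          ∑ i ∈ Finset.range (2 * X.dim + 1), transpose C (π (2 * X.dim + 1 - 1 - i)) := by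
        refine Finset.sum_congr rfl fun i hi => ?_
        rw [Finset.mem_range] at hi
        unfold dual
        rw [if_pos (by omega), Nat.add_sub_cancel]
      rw [h1, Finset.sum_range_reflect (fun i => transpose C (π i)), ← transpose_sum, h.sum,
        transpose_Δ]
  · intro i j x hx y
    by_cases hi : i ≤ 2 * X.dim
    · have hd : dual C X π i = transpose C (π (2 * X.dim - i)) := by unfold dual; rw [if_pos hi]
      rw [hd]
      change pairL C _ x y = _
      have h2 : pairL C (transpose C (π (2 * X.dim - i))) x y =
          (if i = j then (1 : K) else 0) • poinc X x y := by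
        refine ext_gr X _ ((if i = j then (1 : K) else 0) • poinc X x) (fun b y hy => ?_) y
        rw [pairL_apply, pairH_transpose C _ (h.mem _) x hx y hy, pair_ck h _ b y hy x,
          LinearMap.smul_apply, poinc_apply, smul_eq_mul]
        by_cases hjb : j + b = 2 * X.dim
        · have h3 : (W.tr X (x * y)) = (-1 : K) ^ (j * b) * W.tr X (y * x) := by
            rw [(W.graded X).comm j b x y hx hy, (W.trace X).map_smul]
          by_cases hij : i = j
          · rw [if_pos (by omega), if_pos hij, h3, one_mul]
          · rw [if_neg (by omega), if_neg hij, mul_zero, zero_mul]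
        · have h3 : W.tr X (x * y) = 0 := (W.trace X).eq_zero (j + b) _ hjb
            ((W.graded X).mul_mem _ _ _ _ hx hy)
          have h4 : W.tr X (y * x) = 0 := (W.trace X).eq_zero (b + j) _ (by omega)
            ((W.graded X).mul_mem _ _ _ _ hy hx)
          rw [h3, h4, ite_self, mul_zero, mul_zero]
      rw [h2, poinc_apply, smul_eq_mul]
      split_ifs
      · rw [one_mul]
      · rw [zero_mul]
    · have hd : dual C X π i = 0 := by unfold dual; rw [if_neg hi]
      rw [hd, map_zero]
      split_ifs with hij
      · have hx0 : x = 0 := by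
          have := (W.graded X).eq_bot j (by omega)
          rw [this] at hx
          exact hx
        rw [hx0, zero_mul, ChowTheory.tr_zero]
      · rfl

/-- The product of Chow-Künneth decompositions is a Chow-Künneth decomposition. -/
theorem prod_isCK (h : C.IsCK X π) (h' : C.IsCK Y π') : C.IsCK (X.prod Y) (prodDec C π π') := by
  have hcoh := ck_of_pair (C := C) (π := prodDec C π π') (X := X.prod Y) ?_
  · refine ⟨fun i => ?_, fun i hi => ?_, fun i => ?_, fun i j hij => ?_, ?_, hcoh.1, hcoh.2⟩
    · refine (CHiL _ _).sum_mem fun a _ => ?_
      have := extCorr_mem C (h.mem a) (h'.mem (i - a))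
      rw [add_comm] at this
      exact this
    · refine Finset.sum_eq_zero fun a ha => ?_
      rw [Finset.mem_range] at ha
      have hd : (X.prod Y).dim = Y.dim + X.dim := rfl
      by_cases h1 : 2 * X.dim < a
      · rw [h.zero a h1, extCorr_zero_left]
      · rw [h'.zero (i - a) (by omega), extCorr_zero_right]
    · unfold prodDec
      rw [sum_comp]
      refine Finset.sum_congr rfl fun a ha => ?_
      rw [comp_sum, Finset.sum_eq_single a]
      · rw [comp_extCorr, h.idem, h'.idem]
      · intro b _ hb
        rw [comp_extCorr, h.orth _ _ hb.symm, extCorr_zero_left]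
      · intro hh; exact absurd ha hh
    · unfold prodDec
      rw [sum_comp]
      refine Finset.sum_eq_zero fun a ha => ?_
      rw [comp_sum]
      refine Finset.sum_eq_zero fun b hb => ?_
      rw [Finset.mem_range] at ha hb
      rw [comp_extCorr]
      by_cases hab : a = b
      · rw [h'.orth _ _ (by omega), extCorr_zero_right]
      · rw [h.orth _ _ hab, extCorr_zero_left]
    · have := sum_prodDec C X Y π π' h.zero h'.zero
      rw [h.sum, h'.sum, extCorr_Δ] at this
      exact this
  · intro i j x hx y
    have hx' := gr_le_kun W X Y j hx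
    change pairL C _ x y = _
    have key : ∀ x ∈ kun W X Y j, ∀ y, pairL C (prodDec C π π' i) x y =
        (if i = j then (1 : K) else 0) • poinc (X.prod Y) x y := by
      intro x hx y
      refine Submodule.span_induction (p := fun x _ => pairL C (prodDec C π π' i) x y =
        (if i = j then (1 : K) else 0) • poinc (X.prod Y) x y) ?_ ?_ ?_ ?_ hx
      · rintro _ ⟨a, b, hab, x1, hx1, x2, hx2, rfl⟩
        refine ext_kun X Y _ ((if i = j then (1 : K) else 0) • poinc (X.prod Y)
          (W.pull (fst X Y) x1 * W.pull (snd X Y) x2)) (fun c y1 hy1 y2 => ?_) y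
        rw [LinearMap.smul_apply, poinc_apply, smul_eq_mul, tr_mul_prod x1 x2 hx2 y1 hy1 y2,
          pairL_apply]
        unfold prodDec
        rw [map_sum]
        have hterm : ∀ l ∈ Finset.range (i + 1), pairH C (W.pull (fst X Y) x1 * W.pull (snd X Y) x2)
            (W.pull (fst X Y) y1 * W.pull (snd X Y) y2) (extCorr C (π l) (π' (i - l))) =
            (-1 : K) ^ (b * c) * ((if l = a then W.tr X (x1 * y1) else 0) *
              (if i - l = b then W.tr Y (x2 * y2) else 0)) := by
          intro l _
          rw [pairH_extCorr C _ _ (h.mem _) (h'.mem _) x1 x2 hx2 y1 hy1 y2,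
            pair_ck h l a x1 hx1 y1, pair_ck h' (i - l) b x2 hx2 y2]
        rw [Finset.sum_congr rfl hterm, ← Finset.mul_sum]
        by_cases hai : a ≤ i
        · rw [Finset.sum_eq_single a]
          · rw [if_pos rfl]
            by_cases hij : i = j
            · rw [if_pos (by omega), if_pos hij, one_mul]
            · rw [if_neg (by omega), if_neg hij, mul_zero, mul_zero, zero_mul]
          · intro l _ hl
            rw [if_neg hl, zero_mul]
          · intro hh
            exact absurd (Finset.mem_range.2 (by omega)) hh
        · rw [Finset.sum_eq_zero, if_neg (by omega), mul_zero, zero_mul]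
          intro l hl
          rw [Finset.mem_range] at hl
          rw [if_neg (by omega), zero_mul]
      · rw [map_zero, map_zero, LinearMap.zero_apply, smul_zero]
      · intro a b _ _ ha hb
        rw [map_add, map_add, LinearMap.add_apply, LinearMap.add_apply, ha, hb, smul_add]
      · intro r a _ ha
        rw [map_smul, map_smul, LinearMap.smul_apply, LinearMap.smul_apply, ha, smul_comm]
    rw [key x hx' y, poinc_apply, smul_eq_mul]
    split_ifs
    · rw [one_mul]
    · rw [zero_mul]

end Pool.Agent.Helper32.Murre
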