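import Pool.Agent.Helper32.Murre.Lin

/-!
# The cohomological action of transposes and product correspondences
-/

universe u v w

open CategoryTheory AlgebraicGeometry Limits

namespace Pool.Agent.Helper32.Murre

open Pool.Agent.Helper10 Pool.Agent.Helper10.SmProjVar Pool.Agent.Helper47.Chow

variable {k : Type u} [Field k] {K : Type v} [Field K] [CharZero K]

section Graded

variable (W : WeilCohomology.{u, v, w} k K)

/-- The part of degree `n` of the Künneth decomposition. -/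
noncomputable def kun (X Y : SmProjVar k) (n : ℕ) : Submodule K (W.H (X.prod Y)) :=
  Submodule.span K {z | ∃ a b, a + b = n ∧ ∃ x ∈ W.gr X a, ∃ y ∈ W.gr Y b,
    z = W.pull (fst X Y) x * W.pull (snd X Y) y}

lemma kun_le (X Y : SmProjVar k) (n : ℕ) : kun W X Y n ≤ W.gr _ n := by
  refine Submodule.span_le.2 ?_
  rintro _ ⟨a, b, rfl, x, hx, y, hy, rfl⟩
  exact (W.graded _).mul_mem _ _ _ _ ((W.pull_hom _).map_mem _ _ hx)
    ((W.pull_hom _).map_mem _ _ hy)

lemma iSup_kun (X Y : SmProjVar k) : ⨆ n, kun W X Y n = ⊤ := by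
  rw [eq_top_iff, ← span_kunneth W X Y]
  refine Submodule.span_le.2 ?_
  rintro _ ⟨x, y, rfl⟩
  have hx : x ∈ ⨆ j, W.gr X j := by rw [(W.graded X).iSup_eq_top]; trivial
  have hy : y ∈ ⨆ j, W.gr Y j := by rw [(W.graded Y).iSup_eq_top]; trivial
  change pullL W (fst X Y) x * pullL W (snd X Y) y ∈ ⨆ n, kun W X Y n
  refine Submodule.iSup_induction (W.gr X)
    (motive := fun x => pullL W (fst X Y) x * pullL W (snd X Y) y ∈ ⨆ n, kun W X Y n) hx ?_ ?_ ?_
  · intro a x hx
    refine Submodule.iSup_induction (W.gr Y)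
      (motive := fun y => pullL W (fst X Y) x * pullL W (snd X Y) y ∈ ⨆ n, kun W X Y n)
      hy ?_ ?_ ?_
    · intro b y hy
      exact Submodule.mem_iSup_of_mem (a + b) (Submodule.subset_span
        ⟨a, b, rfl, x, hx, y, hy, rfl⟩)
    · rw [map_zero, mul_zero]; exact Submodule.zero_mem _
    · intro y y' h h'
      rw [map_add, mul_add]; exact Submodule.add_mem _ h h'
  · rw [map_zero, zero_mul]; exact Submodule.zero_mem _
  · intro x x' h h'
    rw [map_add, add_mul]; exact Submodule.add_mem _ h h'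

lemma gr_le_kun (X Y : SmProjVar k) (n : ℕ) : W.gr (X.prod Y) n ≤ kun W X Y n := by
  have h1 : (⨆ j, kun W X Y j) = kun W X Y n ⊔ ⨆ (j) (_ : j ≠ n), kun W X Y j := by
    apply le_antisymm
    · refine iSup_le fun j => ?_
      by_cases hj : j = n
      · subst hj; exact le_sup_left
      · exact le_sup_of_le_right (le_iSup₂_of_le j hj le_rfl)
    · exact sup_le (le_iSup _ _) (iSup₂_le fun j _ => le_iSup _ _)
  have h2 : (⨆ (j) (_ : j ≠ n), kun W X Y j) ≤ ⨆ (j) (_ : j ≠ n), W.gr (X.prod Y) j :=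
    iSup₂_mono fun j _ => kun_le W X Y j
  have h3 := ((W.graded (X.prod Y)).indep n).le_bot
  intro x hx
  have hx' : x ∈ kun W X Y n ⊔ ⨆ (j) (_ : j ≠ n), kun W X Y j := by
    rw [← h1, iSup_kun]; trivial
  obtain ⟨y, hy, z, hz, rfl⟩ := Submodule.mem_sup.1 hx'
  have hz' : z ∈ W.gr (X.prod Y) n := by
    have := Submodule.sub_mem _ hx (kun_le W X Y n hy)
    simpa using this
  have hz0 : z = 0 := h3 ⟨hz', h2 hz⟩
  rw [hz0, add_zero]
  exact hy

end Graded

variable {W : WeilCohomology.{u, v, w} k K} (C : ChowTheory W)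

section Pair

variable {X X' Y Y' : SmProjVar k}

/-- `pairH` as a bilinear form for a fixed correspondence. -/
noncomputable def pairL (γ : CH (X.prod Y)) : W.H X →ₗ[K] W.H Y →ₗ[K] K where
  toFun x :=
    { toFun := fun y => trL W _ (pullL W (fst X Y) x * C.cl _ γ * pullL W (snd X Y) y)
      map_add' := fun y y' => by rw [map_add, mul_add, map_add]
      map_smul' := fun r y => by rw [map_smul, mul_smul_comm, map_smul, RingHom.id_apply] }
  map_add' x x' := by
    refine LinearMap.ext fun y => ?_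
    simp only [LinearMap.coe_mk, AddHom.coe_mk, map_add, add_mul, LinearMap.add_apply]
  map_smul' r x := by
    refine LinearMap.ext fun y => ?_
    simp only [LinearMap.coe_mk, AddHom.coe_mk, map_smul, smul_mul_assoc, LinearMap.smul_apply,
      RingHom.id_apply]

lemma pairL_apply (γ : CH (X.prod Y)) (x : W.H X) (y : W.H Y) :
    pairL C γ x y = pairH C x y γ := rfl

/-- The Poincaré pairing. -/
noncomputable def poinc (X : SmProjVar k) : W.H X →ₗ[K] W.H X →ₗ[K] K :=
  (LinearMap.mul K (W.H X)).compr₂ (trL W X)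

omit C in
lemma poinc_apply (X : SmProjVar k) (x y : W.H X) : poinc (W := W) X x y = W.tr X (x * y) := rfl

/-- Two linear maps on the cohomology agree if they agree on homogeneous elements. -/
lemma ext_gr {M : Type*} [AddCommGroup M] [Module K M] (X : SmProjVar k) (f g : W.H X →ₗ[K] M)
    (h : ∀ b, ∀ y ∈ W.gr X b, f y = g y) (y : W.H X) : f y = g y := by
  have hy : y ∈ ⨆ j, W.gr X j := by rw [(W.graded X).iSup_eq_top]; trivial
  refine Submodule.iSup_induction (W.gr X) (motive := fun y => f y = g y) hy h ?_ ?_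
  · rw [map_zero, map_zero]
  · intro a b ha hb
    rw [map_add, map_add, ha, hb]

lemma ext_kun {M : Type*} [AddCommGroup M] [Module K M] (X Y : SmProjVar k)
    (f g : W.H (X.prod Y) →ₗ[K] M)
    (h : ∀ c, ∀ y ∈ W.gr X c, ∀ y' : W.H Y, f (W.pull (fst X Y) y * W.pull (snd X Y) y') =
      g (W.pull (fst X Y) y * W.pull (snd X Y) y')) (z : W.H (X.prod Y)) : f z = g z := by
  have hz : z ∈ ⨆ n, kun W X Y n := by rw [iSup_kun]; trivial
  refine Submodule.iSup_induction _ (motive := fun y => f y = g y) hz ?_ ?_ ?_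
  · intro n y hy
    refine Submodule.span_induction (p := fun y _ => f y = g y) ?_ ?_ ?_ ?_ hy
    · rintro _ ⟨a, b, -, x, hx, y, hy, rfl⟩
      exact h a x hx y
    · rw [map_zero, map_zero]
    · intro a b _ _ ha hb
      rw [map_add, map_add, ha, hb]
    · intro r a _ ha
      rw [map_smul, map_smul, ha]
  · rw [map_zero, map_zero]
  · intro a b ha hb
    rw [map_add, map_add, ha, hb]

lemma pairH_transpose {m a b : ℕ} (γ : CH (X.prod Y)) (hγ : γ ∈ CHi (X.prod Y) m)
    (x : W.H Y) (hx : x ∈ W.gr Y a) (y : W.H X) (hy : y ∈ W.gr X b) :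
    pairH C x y (transpose C γ) = (-1 : K) ^ (a * b) * pairH C y x γ := by
  rw [pairH_apply, pairH_apply, transpose_eq, C.cl_pull]
  have h1 : W.pull (fst Y X) x = W.pull (swap X Y) (W.pull (snd X Y) x) := by
    rw [← W.pull_comp]
    have : swap X Y ≫ snd X Y = fst Y X := by simp [swap]
    rw [this]
  have h2 : W.pull (snd Y X) y = W.pull (swap X Y) (W.pull (fst X Y) y) := by
    rw [← W.pull_comp]
    have : swap X Y ≫ fst X Y = snd Y X := by simp [swap]
    rw [this]
  have hc := C.cl_mem _ _ _ hγ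
  have h3 : W.pull (snd X Y) x * C.cl _ γ * W.pull (fst X Y) y =
      (-1 : K) ^ (a * b) • (W.pull (fst X Y) y * C.cl _ γ * W.pull (snd X Y) x) := by
    rw [← even_comm W _ m _ _ hc, mul_assoc, (W.graded _).comm a b _ _
      ((W.pull_hom _).map_mem _ _ hx) ((W.pull_hom _).map_mem _ _ hy), mul_smul_comm, ← mul_assoc,
      even_comm W _ m _ _ hc]
  rw [h1, h2, ← (W.pull_hom _).map_mul, ← (W.pull_hom _).map_mul, tr_pull_iso C (swap_inv X Y),
    h3, (W.trace _).map_smul]

/-- The pairing of a product correspondence. -/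
lemma pairH_extCorr {i j : ℕ} (α : CH (X.prod Y)) (β : CH (X'.prod Y'))
    (hα : α ∈ CHi (X.prod Y) i) (hβ : β ∈ CHi (X'.prod Y') j) {b c : ℕ}
    (x1 : W.H X) (x2 : W.H X') (hx2 : x2 ∈ W.gr X' b) (y1 : W.H Y) (hy1 : y1 ∈ W.gr Y c)
    (y2 : W.H Y') :
    pairH C (W.pull (fst X X') x1 * W.pull (snd X X') x2)
      (W.pull (fst Y Y') y1 * W.pull (snd Y Y') y2) (extCorr C α β) =
      (-1 : K) ^ (b * c) * (pairH C x1 y1 α * pairH C x2 y2 β) := by
  rw [pairH_apply, pairH_apply, pairH_apply]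
  change W.tr _ (_ * C.cl _ (C.mul _ (C.pull (m13 X X' Y Y') α) (C.pull (m24 X X' Y Y') β)) * _) = _
  rw [C.cl_mul, (W.pull_hom (fst (X.prod X') (Y.prod Y'))).map_mul,
    (W.pull_hom (snd (X.prod X') (Y.prod Y'))).map_mul]
  set A := C.cl _ (C.pull (m13 X X' Y Y') α) with hA
  set B := C.cl _ (C.pull (m24 X X' Y Y') β) with hB
  have hAm : A ∈ W.gr _ (2 * i) := C.cl_mem _ _ _ (C.pull_mem _ _ _ hα)
  have hBm : B ∈ W.gr _ (2 * j) := C.cl_mem _ _ _ (C.pull_mem _ _ _ hβ)
  set X1 := W.pull (fst (X.prod X') (Y.prod Y')) (W.pull (fst X X') x1) with hX1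
  set X2 := W.pull (fst (X.prod X') (Y.prod Y')) (W.pull (snd X X') x2) with hX2
  set Y1 := W.pull (snd (X.prod X') (Y.prod Y')) (W.pull (fst Y Y') y1) with hY1
  set Y2 := W.pull (snd (X.prod X') (Y.prod Y')) (W.pull (snd Y Y') y2) with hY2
  have hX2m : X2 ∈ W.gr _ b := (W.pull_hom _).map_mem _ _ ((W.pull_hom _).map_mem _ _ hx2)
  have hY1m : Y1 ∈ W.gr _ c := (W.pull_hom _).map_mem _ _ ((W.pull_hom _).map_mem _ _ hy1)
  have h1 : X1 * X2 * (A * B) * (Y1 * Y2) = (-1 : K) ^ (b * c) • ((X1 * A * Y1) * (X2 * B * Y2)) := by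
    have e1 : X1 * X2 * (A * B) * (Y1 * Y2) = (X1 * A) * (X2 * Y1) * (B * Y2) := by
      calc X1 * X2 * (A * B) * (Y1 * Y2) = X1 * (X2 * A) * (B * Y1) * Y2 := by
            simp only [mul_assoc]
        _ = X1 * (A * X2) * (Y1 * B) * Y2 := by
            rw [even_comm W _ i _ _ hAm, even_comm W _ j _ _ hBm]
        _ = _ := by simp only [mul_assoc]
    rw [e1, (W.graded _).comm b c _ _ hX2m hY1m, mul_smul_comm, smul_mul_assoc]
    congr 1
    simp only [mul_assoc]
  rw [h1, (W.trace _).map_smul]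
  congr 1
  rw [← W.tr_prod, ← tr_pull_iso C (mid_inv X X' Y Y')]
  congr 1
  simp only [(W.pull_hom _).map_mul, ← W.pull_comp]
  rw [hA, hB, C.cl_pull, C.cl_pull, hX1, hX2, hY1, hY2]
  simp only [← W.pull_comp]
  have g1 : (mid X X' Y Y' ≫ fst _ _) ≫ fst X Y = fst _ _ ≫ fst X X' := by simp [mid, m13]
  have g2 : mid X X' Y Y' ≫ fst _ _ = m13 X X' Y Y' := by simp [mid]
  have g3 : (mid X X' Y Y' ≫ fst _ _) ≫ snd X Y = snd _ _ ≫ fst Y Y' := by simp [mid, m13]
  have g4 : (mid X X' Y Y' ≫ snd _ _) ≫ fst X' Y' = fst _ _ ≫ snd X X' := by simp [mid, m24]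
  have g5 : mid X X' Y Y' ≫ snd _ _ = m24 X X' Y Y' := by simp [mid]
  have g6 : (mid X X' Y Y' ≫ snd _ _) ≫ snd X' Y' = snd _ _ ≫ snd Y Y' := by simp [mid, m24]
  rw [← g1, ← g2, ← g3, ← g4, ← g5, ← g6]
  simp only [Category.assoc]

omit C in
lemma tr_mul_prod {b c : ℕ} (x1 : W.H X) (x2 : W.H X') (hx2 : x2 ∈ W.gr X' b) (y1 : W.H X)
    (hy1 : y1 ∈ W.gr X c) (y2 : W.H X') :
    W.tr _ (W.pull (fst X X') x1 * W.pull (snd X X') x2 *
      (W.pull (fst X X') y1 * W.pull (snd X X') y2)) =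
      (-1 : K) ^ (b * c) * (W.tr X (x1 * y1) * W.tr X' (x2 * y2)) := by
  rw [← W.tr_prod, ← (W.trace _).map_smul]
  congr 1
  rw [(W.pull_hom _).map_mul, (W.pull_hom _).map_mul]
  have e1 : W.pull (fst X X') x1 * W.pull (snd X X') x2 *
      (W.pull (fst X X') y1 * W.pull (snd X X') y2) =
      W.pull (fst X X') x1 * (W.pull (snd X X') x2 * W.pull (fst X X') y1) *
        W.pull (snd X X') y2 := by simp only [mul_assoc]
  rw [e1, (W.graded _).comm b c _ _ ((W.pull_hom _).map_mem _ _ hx2)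
    ((W.pull_hom _).map_mem _ _ hy1), mul_smul_comm, smul_mul_assoc]
  congr 1
  simp only [mul_assoc]

end Pair

end Pool.Agent.Helper32.Murre
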