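import Pool.Agent.Helper47.Chow.Defs

/-!
# The dual of a Chow-Künneth decomposition and the product decomposition of `X × X`
-/

universe u v w

open CategoryTheory AlgebraicGeometry Limits

namespace Pool.Agent.Helper32.Murre

open Pool.Agent.Helper10 Pool.Agent.Helper10.SmProjVar Pool.Agent.Helper47.Chow

section Maps

variable {k : Type u} [Field k]

/-- `(y, x) ↦ (x, y)`. -/
noncomputable def swap (X Y : SmProjVar k) : (Y.prod X).toOver ⟶ (X.prod Y).toOver :=
  lift (snd Y X) (fst Y X)

/-- `((x, x'), (y, y')) ↦ (x, y)`. -/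
noncomputable def m13 (X X' Y Y' : SmProjVar k) :
    ((X.prod X').prod (Y.prod Y')).toOver ⟶ (X.prod Y).toOver :=
  lift (fst _ _ ≫ fst X X') (snd _ _ ≫ fst Y Y')

/-- `((x, x'), (y, y')) ↦ (x', y')`. -/
noncomputable def m24 (X X' Y Y' : SmProjVar k) :
    ((X.prod X').prod (Y.prod Y')).toOver ⟶ (X'.prod Y').toOver :=
  lift (fst _ _ ≫ snd X X') (snd _ _ ≫ snd Y Y')

end Maps

variable {k : Type u} [Field k] {K : Type v} [Field K] [CharZero K]
  {W : WeilCohomology.{u, v, w} k K} (C : ChowTheory W)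

/-- The transpose of a correspondence. -/
noncomputable def transpose {X Y : SmProjVar k} (γ : CH (X.prod Y)) : CH (Y.prod X) :=
  C.ops.pull (swap X Y) γ

/-- The product correspondence `α × β ∈ CH((X × X') × (Y × Y'))` of `α ∈ CH(X × Y)` and
`β ∈ CH(X' × Y')`. -/
noncomputable def extCorr {X X' Y Y' : SmProjVar k} (α : CH (X.prod Y)) (β : CH (X'.prod Y')) :
    CH ((X.prod X').prod (Y.prod Y')) :=
  C.ops.mul _ (C.ops.pull (m13 X X' Y Y') α) (C.ops.pull (m24 X X' Y Y') β)

/-- The dual `π^∨` of a Chow-Künneth decomposition `π` of `X`, `d = dim X`: its `i`-th projector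
is the transpose of `π (2 d - i)`. -/
noncomputable def dual (X : SmProjVar k) (π : ℕ → CH (X.prod X)) (i : ℕ) : CH (X.prod X) :=
  if i ≤ 2 * X.dim then transpose C (π (2 * X.dim - i)) else 0

/-- The product decomposition of `X × Y`: its `n`-th projector is the sum of the product
correspondences `π a × π' (n - a)`, `0 ≤ a ≤ n`. -/
noncomputable def prodDec {X Y : SmProjVar k} (π : ℕ → CH (X.prod X)) (π' : ℕ → CH (Y.prod Y))
    (n : ℕ) : CH ((X.prod Y).prod (X.prod Y)) :=
  ∑ a ∈ Finset.range (n + 1), extCorr C (π a) (π' (n - a))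

end Pool.Agent.Helper32.Murre
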