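import Pool.Agent.Helper47.Chow.Alg

/-!
# Isomorphisms and external products in a Chow theory
-/

universe u v w

open CategoryTheory AlgebraicGeometry Limits

namespace Pool.Agent.Helper32.Murre

open Pool.Agent.Helper10 Pool.Agent.Helper10.SmProjVar Pool.Agent.Helper47.Chow

attribute [local simp] SmProjVar.lift_fst_assoc SmProjVar.lift_snd_assoc

variable {k : Type u} [Field k] {K : Type v} [Field K] [CharZero K]
  {W : WeilCohomology.{u, v, w} k K} (C : ChowTheory W)

section Iso

variable {P Q : SmProjVar k}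

/-- Mutually inverse morphisms. -/
structure Inv (θ : P.toOver ⟶ Q.toOver) (ψ : Q.toOver ⟶ P.toOver) : Prop where
  h1 : θ ≫ ψ = 𝟙 _
  h2 : ψ ≫ θ = 𝟙 _

lemma Inv.symm {θ : P.toOver ⟶ Q.toOver} {ψ : Q.toOver ⟶ P.toOver} (h : Inv θ ψ) : Inv ψ θ :=
  ⟨h.h2, h.h1⟩

lemma Inv.isPullback {θ : P.toOver ⟶ Q.toOver} {ψ : Q.toOver ⟶ P.toOver} (h : Inv θ ψ) :
    IsPullback θ θ (𝟙 Q.toOver) (𝟙 Q.toOver) := by
  refine isPullback_mk _ _ _ _ rfl ?_ ?_
  · intro T s t hst
    rw [Category.comp_id, Category.comp_id] at hst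
    subst hst
    exact ⟨s ≫ ψ, by rw [Category.assoc, h.h2, Category.comp_id],
      by rw [Category.assoc, h.h2, Category.comp_id]⟩
  · intro T l l' h1 _
    have := congrArg (· ≫ ψ) h1
    simpa [h.h1] using this

instance flat_id (X : SmProjVar k) : Flat (𝟙 X.toOver : X.toOver ⟶ X.toOver).left :=
  inferInstanceAs (Flat (𝟙 X.toOver.left))

lemma push_pull_iso {θ : P.toOver ⟶ Q.toOver} {ψ : Q.toOver ⟶ P.toOver} (h : Inv θ ψ)
    (a : CH Q) : C.push θ (C.pull θ a) = a := by
  have := C.base_change (𝟙 Q.toOver) (𝟙 Q.toOver) θ θ h.isPullback inferInstance a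
  rw [C.pull_id, C.push_id] at this
  exact this.symm

lemma push_eq_pull {θ : P.toOver ⟶ Q.toOver} {ψ : Q.toOver ⟶ P.toOver} (h : Inv θ ψ)
    (a : CH P) : C.push θ a = C.pull ψ a := by
  have h1 : a = C.pull θ (C.pull ψ a) := by rw [← C.pull_comp, h.h1, C.pull_id]
  conv_lhs => rw [h1]
  exact push_pull_iso C h _

/-- Base change along isomorphisms. -/
lemma pull_push_iso {X Y X' Y' : SmProjVar k} {g : Y'.toOver ⟶ Y.toOver}
    {ψ : Y.toOver ⟶ Y'.toOver} (hg : Inv g ψ) {g' : X'.toOver ⟶ X.toOver}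
    {ψ' : X.toOver ⟶ X'.toOver} (hg' : Inv g' ψ') (f : X.toOver ⟶ Y.toOver)
    (f' : X'.toOver ⟶ Y'.toOver) (w : g' ≫ f = f' ≫ g) (a : CH X) :
    C.pull g (C.push f a) = C.push f' (C.pull g' a) := by
  rw [← push_eq_pull C hg.symm, ← push_eq_pull C hg'.symm, ← C.push_comp, ← C.push_comp]
  congr 2
  have h1 : ψ' ≫ g' ≫ f ≫ ψ = ψ' ≫ f' ≫ g ≫ ψ := by
    rw [← Category.assoc g' f ψ, w, Category.assoc]
  rwa [← Category.assoc, hg'.h2, Category.id_comp, hg.h1, Category.comp_id] at h1

include C in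
lemma tr_pull_iso {θ : P.toOver ⟶ Q.toOver} {ψ : Q.toOver ⟶ P.toOver} (h : Inv θ ψ)
    (y : W.H Q) : W.tr P (W.pull θ y) = W.tr Q y := by
  have h1 := C.cl_push θ (one P) y
  have h2 : C.push θ (one P) = one Q := by
    rw [← C.pull_one θ, push_pull_iso C h]
  rw [h2, cl_one, cl_one, _root_.one_mul, _root_.one_mul] at h1
  exact h1.symm

end Iso

section Ext

variable {A B X Y : SmProjVar k}

/-- `(a, x) ↦ (f a, x)`. -/
noncomputable def prodId (f : A.toOver ⟶ B.toOver) (X : SmProjVar k) :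
    (A.prod X).toOver ⟶ (B.prod X).toOver :=
  lift (fst A X ≫ f) (snd A X)

lemma isPullback_fst (f : A.toOver ⟶ B.toOver) (X : SmProjVar k) :
    IsPullback (fst A X) (prodId f X) f (fst B X) := by
  refine isPullback_mk _ _ _ _ ?_ ?_ ?_
  · simp [prodId]
  · intro T s t h
    refine ⟨liftT s (t ≫ snd B X), by simp, ?_⟩
    apply prod_ext
    · simp [prodId, h]
    · simp [prodId]
  · intro T l l' h1 h2
    apply prod_ext
    · exact h1
    · have := congrArg (· ≫ snd B X) h2
      simpa [prodId] using this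

lemma extProd_push_right (a : CH X) (f : A.toOver ⟶ B.toOver) (b : CH A) :
    extProd C a (C.push f b) = C.push (idProd X f) (extProd C a b) := by
  rw [extProd, extProd, C.base_change f (snd X B) (snd X A) (idProd X f) (isPullback_snd X f)
    inferInstance, ← C.projection', ← C.pull_comp]
  congr 2
  have h : idProd X f ≫ fst X B = fst X A := by simp [idProd]
  rw [h]

lemma extProd_push_left (f : A.toOver ⟶ B.toOver) (a : CH A) (b : CH X) :
    extProd C (C.push f a) b = C.push (prodId f X) (extProd C a b) := by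
  rw [extProd, extProd, C.base_change f (fst B X) (fst A X) (prodId f X) (isPullback_fst f X)
    inferInstance, ← C.projection, ← C.pull_comp]
  congr 2
  have h : prodId f X ≫ snd B X = snd A X := by simp [prodId]
  rw [h]

/-- `(a, x) ↦ (f a, g x)`. -/
noncomputable def prodMap (f : A.toOver ⟶ B.toOver) (g : X.toOver ⟶ Y.toOver) :
    (A.prod X).toOver ⟶ (B.prod Y).toOver :=
  lift (fst A X ≫ f) (snd A X ≫ g)

lemma extProd_push (f : A.toOver ⟶ B.toOver) (g : X.toOver ⟶ Y.toOver) (a : CH A) (b : CH X) :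
    extProd C (C.push f a) (C.push g b) = C.push (prodMap f g) (extProd C a b) := by
  rw [extProd_push_left, extProd_push_right, ← C.push_comp]
  congr 2
  apply hom_ext
  · simp [prodId, idProd, prodMap]
  · simp [prodId, idProd, prodMap]

end Ext

end Pool.Agent.Helper32.Murre
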