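import Pool.Agent.Helper32.Murre.Prod

/-!
# Linearity and degrees
-/

universe u v w

open CategoryTheory AlgebraicGeometry Limits

namespace Pool.Agent.Helper32.Murre

open Pool.Agent.Helper10 Pool.Agent.Helper10.SmProjVar Pool.Agent.Helper47.Chow

variable {k : Type u} [Field k] {K : Type v} [Field K] [CharZero K]
  {W : WeilCohomology.{u, v, w} k K} (C : ChowTheory W)

variable {X X' Y Y' Z : SmProjVar k}

lemma transpose_sum {ι : Type*} (s : Finset ι) (f : ι → CH (X.prod Y)) :
    transpose C (∑ i ∈ s, f i) = ∑ i ∈ s, transpose C (f i) :=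
  map_sum (C.pull (swap X Y)) f s

lemma transpose_zero : transpose C (0 : CH (X.prod Y)) = 0 := map_zero (C.pull (swap X Y))

lemma transpose_mem {i : ℕ} {γ : CH (X.prod Y)} (h : γ ∈ CHi (X.prod Y) i) :
    transpose C γ ∈ CHi (Y.prod X) i := C.pull_mem _ _ _ h

/-- `extCorr` as a bilinear map. -/
noncomputable def extL (X X' Y Y' : SmProjVar k) :
    CH (X.prod Y) →ₗ[ℚ] CH (X'.prod Y') →ₗ[ℚ] CH ((X.prod X').prod (Y.prod Y')) :=
  (C.mul _).compl₁₂ (C.pull (m13 X X' Y Y')) (C.pull (m24 X X' Y Y'))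

lemma extL_apply (α : CH (X.prod Y)) (β : CH (X'.prod Y')) :
    extL C X X' Y Y' α β = extCorr C α β := rfl

lemma extCorr_zero_left (β : CH (X'.prod Y')) : extCorr C (0 : CH (X.prod Y)) β = 0 := by
  rw [← extL_apply, map_zero, LinearMap.zero_apply]

lemma extCorr_zero_right (α : CH (X.prod Y)) : extCorr C α (0 : CH (X'.prod Y')) = 0 := by
  rw [← extL_apply, map_zero]

lemma extCorr_sum_left {ι : Type*} (s : Finset ι) (f : ι → CH (X.prod Y)) (β : CH (X'.prod Y')) :
    extCorr C (∑ i ∈ s, f i) β = ∑ i ∈ s, extCorr C (f i) β := by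
  rw [← extL_apply, map_sum, LinearMap.sum_apply]
  rfl

lemma extCorr_sum_right {ι : Type*} (s : Finset ι) (α : CH (X.prod Y)) (f : ι → CH (X'.prod Y')) :
    extCorr C α (∑ i ∈ s, f i) = ∑ i ∈ s, extCorr C α (f i) := by
  rw [← extL_apply, map_sum]
  rfl

lemma extCorr_mem {i j : ℕ} {α : CH (X.prod Y)} {β : CH (X'.prod Y')}
    (hα : α ∈ CHi (X.prod Y) i) (hβ : β ∈ CHi (X'.prod Y') j) :
    extCorr C α β ∈ CHi ((X.prod X').prod (Y.prod Y')) (i + j) :=
  C.mul_mem _ _ _ _ _ (C.pull_mem _ _ _ hα) (C.pull_mem _ _ _ hβ)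

lemma comp_sum {ι : Type*} (s : Finset ι) (β : CH (X.prod Y)) (f : ι → CH (Y.prod Z)) :
    C.comp β (∑ i ∈ s, f i) = ∑ i ∈ s, C.comp β (f i) :=
  map_sum (⟨⟨fun γ => C.comp β γ, C.comp_zero β⟩, fun γ γ' => C.comp_add β γ γ'⟩ :
    CH (Y.prod Z) →+ CH (X.prod Z)) f s

lemma sum_comp {ι : Type*} (s : Finset ι) (f : ι → CH (X.prod Y)) (γ : CH (Y.prod Z)) :
    C.comp (∑ i ∈ s, f i) γ = ∑ i ∈ s, C.comp (f i) γ :=
  map_sum (⟨⟨fun β => C.comp β γ, C.zero_comp γ⟩, fun β β' => C.add_comp β β' γ⟩ :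
    CH (X.prod Y) →+ CH (X.prod Z)) f s

lemma transpose_extProd (b : CH X) (a : CH Y) :
    transpose C (extProd C b a) = extProd C a b := by
  rw [transpose_eq, extProd, extProd, C.pull_mul, ← C.pull_comp, ← C.pull_comp, C.mul_comm]
  have h1 : swap X Y ≫ fst X Y = snd Y X := by simp [swap]
  have h2 : swap X Y ≫ snd X Y = fst Y X := by simp [swap]
  rw [h1, h2]

/-- `(b × a) ∘ β = β^t_* b × a`. -/
lemma comp_extProd_left (β : CH (X.prod Y)) (b : CH Y) (a : CH Z) :
    C.comp β (extProd C b a) = extProd C (C.act (transpose C β) b) a := by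
  rw [← transpose_transpose C (C.comp β (extProd C b a)), transpose_comp, transpose_extProd,
    comp_extProd, transpose_extProd]

lemma extProd_add_left (b b' : CH X) (a : CH Y) :
    extProd C (b + b') a = extProd C b a + extProd C b' a := by
  unfold extProd; rw [map_add, map_add, LinearMap.add_apply]

lemma extProd_zero_left (a : CH Y) : extProd C (0 : CH X) a = 0 := by
  unfold extProd; rw [map_zero, map_zero, LinearMap.zero_apply]

lemma extProd_sum_left {ι : Type*} (s : Finset ι) (f : ι → CH X) (a : CH Y) :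
    extProd C (∑ i ∈ s, f i) a = ∑ i ∈ s, extProd C (f i) a :=
  map_sum (⟨⟨fun b => extProd C b a, extProd_zero_left C a⟩,
    fun b b' => extProd_add_left C b b' a⟩ : CH X →+ CH (X.prod Y)) f s

/-- `a` is determined by `1 × a`. -/
lemma extProd_one_injective (a : CH X) (h : extProd C (one X) a = 0) : a = 0 := by
  have h1 : C.pull (diag X) (extProd C (one X) a) = a := by
    have h2 : diag X ≫ snd X X = 𝟙 _ := by simp [Helper47.Chow.diag]
    rw [extProd, C.pull_one, C.one_mul, ← C.pull_comp, h2, C.pull_id]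
  rw [← h1, h, map_zero]

section Sum

/-- The product decomposition as a double sum. -/
lemma sum_prodDec (X Y : SmProjVar k) (π : ℕ → CH (X.prod X)) (π' : ℕ → CH (Y.prod Y))
    (hπ : ∀ i, 2 * X.dim < i → π i = 0) (hπ' : ∀ i, 2 * Y.dim < i → π' i = 0) :
    ∑ n ∈ Finset.range (2 * (Y.dim + X.dim) + 1), prodDec C π π' n =
      extCorr C (∑ i ∈ Finset.range (2 * X.dim + 1), π i)
        (∑ j ∈ Finset.range (2 * Y.dim + 1), π' j) := by
  unfold prodDec
  rw [Finset.sum_range_diag_flip (2 * (Y.dim + X.dim) + 1) (fun a b => extCorr C (π a) (π' b)),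
    extCorr_sum_left]
  symm
  have hsub : Finset.range (2 * X.dim + 1) ⊆ Finset.range (2 * (Y.dim + X.dim) + 1) := by
    intro x hx; rw [Finset.mem_range] at hx ⊢; omega
  rw [← Finset.sum_subset hsub]
  · refine Finset.sum_congr rfl fun a ha => ?_
    rw [Finset.mem_range] at ha
    rw [extCorr_sum_right]
    refine Finset.sum_subset (fun x hx => ?_) fun b _ hb => ?_
    · rw [Finset.mem_range] at hx ⊢; omega
    · rw [Finset.mem_range] at hb
      rw [hπ' b (by omega), extCorr_zero_right]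
  · intro a _ ha
    rw [Finset.mem_range] at ha
    refine Finset.sum_eq_zero fun b _ => ?_
    rw [hπ a (by omega), extCorr_zero_left]

end Sum

end Pool.Agent.Helper32.Murre
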