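import Pool.Agent.Helper32.Murre.Iso
import Pool.Agent.Helper32.Murre.Def

/-!
# Product correspondences and transposes
-/

universe u v w

open CategoryTheory AlgebraicGeometry Limits

namespace Pool.Agent.Helper32.Murre

open Pool.Agent.Helper10 Pool.Agent.Helper10.SmProjVar Pool.Agent.Helper47.Chow

attribute [local simp] SmProjVar.lift_fst_assoc SmProjVar.lift_snd_assoc

variable {k : Type u} [Field k] {K : Type v} [Field K] [CharZero K]
  {W : WeilCohomology.{u, v, w} k K} (C : ChowTheory W)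

section Maps

variable (X X' Y Y' Z Z' : SmProjVar k)

lemma swap_inv : Inv (swap X Y) (swap Y X) :=
  ⟨by apply hom_ext <;> simp [swap], by apply hom_ext <;> simp [swap]⟩

/-- `((x, x'), (y, y')) ↦ ((x, y), (x', y'))`. -/
noncomputable def mid : ((X.prod X').prod (Y.prod Y')).toOver ⟶ ((X.prod Y).prod (X'.prod Y')).toOver :=
  lift (m13 X X' Y Y') (m24 X X' Y Y')

lemma mid_inv : Inv (mid X X' Y Y') (mid X Y X' Y') := by
  constructor <;> (apply hom_ext <;> apply hom_ext <;> simp [mid, m13, m24])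

lemma extCorr_eq {X X' Y Y' : SmProjVar k} (α : CH (X.prod Y)) (β : CH (X'.prod Y')) :
    extCorr C α β = C.pull (mid X X' Y Y') (extProd C α β) := by
  rw [extProd, C.pull_mul, ← C.pull_comp, ← C.pull_comp]
  have h1 : mid X X' Y Y' ≫ fst _ _ = m13 X X' Y Y' := by simp [mid]
  have h2 : mid X X' Y Y' ≫ snd _ _ = m24 X X' Y Y' := by simp [mid]
  rw [h1, h2]
  rfl

lemma transpose_eq {X Y : SmProjVar k} (γ : CH (X.prod Y)) :
    transpose C γ = C.pull (swap X Y) γ := rfl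

lemma transpose_transpose {X Y : SmProjVar k} (γ : CH (X.prod Y)) :
    transpose C (transpose C γ) = γ := by
  rw [transpose_eq, transpose_eq, ← C.pull_comp, (swap_inv Y X).h1, C.pull_id]

/-- `(z, (y, x)) ↦ (x, (y, z))`. -/
noncomputable def rev : (Z.prod (Y.prod X)).toOver ⟶ (X.prod (Y.prod Z)).toOver :=
  lift (snd _ _ ≫ snd _ _) (lift (snd _ _ ≫ fst _ _) (fst _ _))

lemma rev_inv : Inv (rev X Y Z) (rev Z Y X) := by
  constructor <;> (apply hom_ext <;> try apply hom_ext) <;> simp [rev]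

/-- `((x, x'), ((y, y'), (z, z'))) ↦ ((x, (y, z)), (x', (y', z')))`. -/
noncomputable def Th : ((X.prod X').prod ((Y.prod Y').prod (Z.prod Z'))).toOver ⟶
    ((X.prod (Y.prod Z)).prod (X'.prod (Y'.prod Z'))).toOver :=
  lift (lift (fst _ _ ≫ fst _ _) (lift (snd _ _ ≫ fst _ _ ≫ fst _ _) (snd _ _ ≫ snd _ _ ≫ fst _ _)))
    (lift (fst _ _ ≫ snd _ _) (lift (snd _ _ ≫ fst _ _ ≫ snd _ _) (snd _ _ ≫ snd _ _ ≫ snd _ _)))

/-- The inverse of `Th`. -/
noncomputable def ThInv : ((X.prod (Y.prod Z)).prod (X'.prod (Y'.prod Z'))).toOver ⟶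
    ((X.prod X').prod ((Y.prod Y').prod (Z.prod Z'))).toOver :=
  lift (lift (fst _ _ ≫ fst _ _) (snd _ _ ≫ fst _ _))
    (lift (lift (fst _ _ ≫ snd _ _ ≫ fst _ _) (snd _ _ ≫ snd _ _ ≫ fst _ _))
      (lift (fst _ _ ≫ snd _ _ ≫ snd _ _) (snd _ _ ≫ snd _ _ ≫ snd _ _)))

lemma Th_inv : Inv (Th X X' Y Y' Z Z') (ThInv X X' Y Y' Z Z') := by
  constructor
  · apply hom_ext
    · apply hom_ext <;> simp [Th, ThInv]
    · apply hom_ext
      · apply hom_ext <;> simp [Th, ThInv]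
      · apply hom_ext <;> simp [Th, ThInv]
  · apply hom_ext
    · apply hom_ext
      · simp [Th, ThInv]
      · apply hom_ext <;> simp [Th, ThInv]
    · apply hom_ext
      · simp [Th, ThInv]
      · apply hom_ext <;> simp [Th, ThInv]

end Maps

section Formulas

variable {X X' Y Y' Z Z' : SmProjVar k}

lemma transpose_comp (β : CH (X.prod Y)) (γ : CH (Y.prod Z)) :
    transpose C (C.comp β γ) = C.comp (transpose C γ) (transpose C β) := by
  rw [transpose_eq, C.comp_apply, C.comp_apply, transpose_eq, transpose_eq]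
  rw [pull_push_iso C (swap_inv X Z) (rev_inv X Y Z) (p13 X Y Z) (p13 Z Y X)
    (by apply hom_ext <;> simp [rev, p13, swap])]
  rw [C.pull_mul, ← C.pull_comp, ← C.pull_comp, ← C.pull_comp, ← C.pull_comp, C.mul_comm]
  have h1 : rev X Y Z ≫ p12 X Y Z = p23 Z Y X ≫ swap X Y := by
    apply hom_ext <;> simp [rev, p12, swap]
  have h2 : rev X Y Z ≫ p23 X Y Z = p12 Z Y X ≫ swap Y Z := by
    apply hom_ext <;> simp [rev, p12, swap]
  rw [h1, h2]

lemma transpose_Δ (X : SmProjVar k) : transpose C (C.Δ X) = C.Δ X := by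
  rw [transpose_eq, C.Δ_apply]
  have hid : Inv (𝟙 X.toOver) (𝟙 X.toOver) := ⟨Category.comp_id _, Category.comp_id _⟩
  rw [pull_push_iso C (swap_inv X X) hid (diag X) (diag X)
    (by apply hom_ext <;> simp [Helper47.Chow.diag, swap]), C.pull_one]

lemma comp_extCorr (α : CH (X.prod Y)) (β : CH (X'.prod Y')) (α' : CH (Y.prod Z))
    (β' : CH (Y'.prod Z')) :
    C.comp (extCorr C α β) (extCorr C α' β') = extCorr C (C.comp α α') (C.comp β β') := by
  rw [extCorr_eq C (C.comp α α') (C.comp β β'), C.comp_apply α α', C.comp_apply β β',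
    extProd_push, pull_push_iso C (mid_inv X X' Z Z') (Th_inv X X' Y Y' Z Z')
      (prodMap (p13 X Y Z) (p13 X' Y' Z')) (p13 (X.prod X') (Y.prod Y') (Z.prod Z'))
      (by apply hom_ext <;> apply hom_ext <;> simp [Th, prodMap, p13, mid, m13, m24])]
  rw [C.comp_apply]
  congr 1
  rw [extCorr_eq, extCorr_eq, extProd, extProd, extProd]
  simp only [C.pull_mul, ← C.pull_comp]
  have h1 : Th X X' Y Y' Z Z' ≫ fst _ _ ≫ p12 X Y Z =
      p12 (X.prod X') (Y.prod Y') (Z.prod Z') ≫ mid X X' Y Y' ≫ fst _ _ := by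
    apply hom_ext <;> simp [Th, p12, mid, m13]
  have h2 : Th X X' Y Y' Z Z' ≫ fst _ _ ≫ p23 X Y Z =
      p23 (X.prod X') (Y.prod Y') (Z.prod Z') ≫ mid Y Y' Z Z' ≫ fst _ _ := by
    apply hom_ext <;> simp [Th, mid, m13]
  have h3 : Th X X' Y Y' Z Z' ≫ snd _ _ ≫ p12 X' Y' Z' =
      p12 (X.prod X') (Y.prod Y') (Z.prod Z') ≫ mid X X' Y Y' ≫ snd _ _ := by
    apply hom_ext <;> simp [Th, p12, mid, m24]
  have h4 : Th X X' Y Y' Z Z' ≫ snd _ _ ≫ p23 X' Y' Z' =
      p23 (X.prod X') (Y.prod Y') (Z.prod Z') ≫ mid Y Y' Z Z' ≫ snd _ _ := by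
    apply hom_ext <;> simp [Th, mid, m24]
  rw [h1, h2, h3, h4]
  rw [C.mul_assoc, C.mul_assoc]
  congr 1
  rw [← C.mul_assoc, ← C.mul_assoc]
  congr 2
  exact C.mul_comm _ _ _

lemma extCorr_Δ (X Y : SmProjVar k) : extCorr C (C.Δ X) (C.Δ Y) = C.Δ (X.prod Y) := by
  have hid : Inv (𝟙 (X.prod Y).toOver) (𝟙 (X.prod Y).toOver) :=
    ⟨Category.comp_id _, Category.comp_id _⟩
  rw [extCorr_eq, C.Δ_apply, C.Δ_apply, extProd_push,
    pull_push_iso C (mid_inv X Y X Y) hid (prodMap (diag X) (diag Y)) (diag (X.prod Y))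
      (by apply hom_ext <;> apply hom_ext <;> simp [prodMap, Helper47.Chow.diag, mid, m13, m24]),
    extProd, C.pull_one, C.pull_one, C.one_mul, C.pull_one]
  rfl

/-- `(y, (x, (x', y'))) ↦ ((x, x'), (y, y'))`. -/
noncomputable def th (X X' Y Y' : SmProjVar k) : (Y.prod (X.prod (X'.prod Y'))).toOver ⟶
    ((X.prod X').prod (Y.prod Y')).toOver :=
  lift (lift (snd _ _ ≫ fst _ _) (snd _ _ ≫ snd _ _ ≫ fst _ _))
    (lift (fst _ _) (snd _ _ ≫ snd _ _ ≫ snd _ _))

/-- The inverse of `th`. -/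
noncomputable def thInv (X X' Y Y' : SmProjVar k) : ((X.prod X').prod (Y.prod Y')).toOver ⟶
    (Y.prod (X.prod (X'.prod Y'))).toOver :=
  lift (snd _ _ ≫ fst _ _) (lift (fst _ _ ≫ fst _ _)
    (lift (fst _ _ ≫ snd _ _) (snd _ _ ≫ snd _ _)))

lemma th_inv (X X' Y Y' : SmProjVar k) : Inv (th X X' Y Y') (thInv X X' Y Y') := by
  constructor
  · apply hom_ext
    · simp [th, thInv]
    · apply hom_ext
      · simp [th, thInv]
      · apply hom_ext <;> simp [th, thInv]
  · apply hom_ext <;> apply hom_ext <;> simp [th, thInv]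

/-- The action of a product correspondence. -/
lemma act_extCorr (α : CH (X.prod Y)) (β : CH (X'.prod Y')) (γ : CH (X.prod X')) :
    C.act (extCorr C α β) γ = C.comp (C.comp (transpose C α) γ) β := by
  rw [C.comp_apply (C.comp (transpose C α) γ) β, C.comp_apply (transpose C α) γ]
  rw [C.base_change (p13 Y X X') (p12 Y X' Y') (p123 Y X X' Y') (p134 Y X X' Y')
    (isPullback_p123 Y X X' Y') inferInstance]
  rw [← C.projection, ← C.push_comp, C.act_apply]
  rw [← push_pull_iso C (th_inv X X' Y Y')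
    (C.mul _ (C.pull (fst (X.prod X') (Y.prod Y')) γ) (extCorr C α β)), ← C.push_comp]
  have h0 : th X X' Y Y' ≫ snd _ _ = p134 Y X X' Y' ≫ p13 Y X' Y' := by
    apply hom_ext <;> simp [th, p134, p13]
  rw [h0]
  congr 1
  rw [extCorr_eq, extProd, transpose_eq]
  simp only [C.pull_mul, ← C.pull_comp]
  have h1 : th X X' Y Y' ≫ fst _ _ = p123 Y X X' Y' ≫ p23 Y X X' := by
    apply hom_ext <;> simp [th, p123, p12]
  have h2 : th X X' Y Y' ≫ mid X X' Y Y' ≫ fst _ _ = p123 Y X X' Y' ≫ p12 Y X X' ≫ swap X Y := by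
    apply hom_ext <;> simp [th, p123, p12, mid, m13, swap]
  have h3 : th X X' Y Y' ≫ mid X X' Y Y' ≫ snd _ _ = p134 Y X X' Y' ≫ p23 Y X' Y' := by
    apply hom_ext <;> simp [th, p134, mid, m24]
  rw [h1, h2, h3, ← C.mul_assoc]
  congr 1
  rw [C.mul_comm]

end Formulas

end Pool.Agent.Helper32.Murre
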