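import Pool.Agent.Helper32.Murre.CK

/-!
# Two Chow-Künneth decompositions
-/

universe u v w

open CategoryTheory AlgebraicGeometry Limits

namespace Pool.Agent.Helper32.Murre

open Pool.Agent.Helper10 Pool.Agent.Helper10.SmProjVar Pool.Agent.Helper47.Chow

variable {k : Type u} [Field k] {K : Type v} [Field K] [CharZero K]
  {W : WeilCohomology.{u, v, w} k K} {C : ChowTheory W}

variable {X : SmProjVar k} {π π' : ℕ → CH (X.prod X)}

/-- `π b ∘ z ∘ π i = 0` for all homologically trivial `z` and `b ≥ i`. -/
def Upper (C : ChowTheory W) (X : SmProjVar k) (π : ℕ → CH (X.prod X)) : Prop :=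
  ∀ z ∈ CHi (X.prod X) X.dim, C.cl _ z = 0 → ∀ i b, i ≤ b →
    C.comp (C.comp (π i) z) (π b) = 0

lemma comp_sub_left' (β β' γ : CH (X.prod X)) : C.comp (β - β') γ = C.comp β γ - C.comp β' γ := by
  have h := C.add_comp (β - β') β' γ
  rw [sub_add_cancel] at h
  exact eq_sub_of_add_eq h.symm

lemma comp_sub_right' (β γ γ' : CH (X.prod X)) : C.comp β (γ - γ') = C.comp β γ - C.comp β γ' := by
  have h := C.comp_add β (γ - γ') γ'
  rw [sub_add_cancel] at h
  exact eq_sub_of_add_eq h.symm

/-- For `i < j`: `π j ∘ π' i = 0`. -/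
lemma comp_upper (h : C.IsCK X π) (h' : C.IsCK X π') (hU : Upper C X π) (i : ℕ) :
    ∀ m j, i < j → 2 * X.dim + 1 ≤ j + m → C.comp (π' i) (π j) = 0 := by
  intro m
  induction m with
  | zero =>
    intro j _ hm
    rw [h.zero j (by omega), C.comp_zero]
  | succ m ih =>
    intro j hij hm
    -- `π' i = π' i ∘ Σ π l ∘ π' i`
    have hn := IsCK.congr h h' i
    have e1 : C.comp (π' i) (π j) = ∑ l ∈ Finset.range (2 * X.dim + 1),
        C.comp (C.comp (C.comp (π' i) (π l)) (π' i)) (π j) := by
      have e2 : C.comp (π' i) (∑ l ∈ Finset.range (2 * X.dim + 1), π l) = π' i := by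
        rw [h.sum, C.comp_Δ]
      have e3 : ∑ l ∈ Finset.range (2 * X.dim + 1),
          C.comp (C.comp (C.comp (π' i) (π l)) (π' i)) (π j) =
          C.comp (C.comp (C.comp (π' i) (∑ l ∈ Finset.range (2 * X.dim + 1), π l)) (π' i))
            (π j) := by
        rw [comp_sum, sum_comp, sum_comp]
      rw [e3, e2, h'.idem]
    rw [e1]
    refine Finset.sum_eq_zero fun l _ => ?_
    by_cases hl : j < l
    · rw [ih l (by omega) (by omega), C.zero_comp, C.zero_comp]
    · have e4 : C.comp (C.comp (π l) (π' i)) (π j) = 0 := by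
        have e5 : π' i = π i + (π' i - π i) := by abel
        rw [e5, C.comp_add, C.add_comp]
        have e6 : C.comp (C.comp (π l) (π i)) (π j) = 0 := by
          rw [C.comp_assoc, h.orth i j (by omega), C.comp_zero]
        have e7 : C.comp (C.comp (π l) (π' i - π i)) (π j) = 0 :=
          hU _ (Submodule.sub_mem (CHiL _ _) (h'.mem i) (h.mem i)) hn l j (by omega)
        rw [e6, e7, add_zero]
      rw [C.comp_assoc, C.comp_assoc, ← C.comp_assoc (π l), e4, C.comp_zero]

/-- For `i < j`: `π' j ∘ π i = 0`. -/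
lemma comp_upper' (h : C.IsCK X π) (h' : C.IsCK X π') (hU : Upper C X π) (j : ℕ) :
    ∀ i, i < j → C.comp (π i) (π' j) = 0 := by
  intro i
  induction i using Nat.strong_induction_on with
  | _ i ih =>
    intro hij
    have hn := IsCK.congr h h' j
    have e1 : C.comp (π i) (π' j) = ∑ l ∈ Finset.range (2 * X.dim + 1),
        C.comp (π i) (C.comp (π' j) (C.comp (π l) (π' j))) := by
      have e2 : C.comp (∑ l ∈ Finset.range (2 * X.dim + 1), π l) (π' j) = π' j := by
        rw [h.sum, C.Δ_comp]
      have e3 : ∑ l ∈ Finset.range (2 * X.dim + 1),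
          C.comp (π i) (C.comp (π' j) (C.comp (π l) (π' j))) =
          C.comp (π i) (C.comp (π' j)
            (C.comp (∑ l ∈ Finset.range (2 * X.dim + 1), π l) (π' j))) := by
        rw [sum_comp, comp_sum, comp_sum]
      rw [e3, e2, h'.idem]
    rw [e1]
    refine Finset.sum_eq_zero fun l _ => ?_
    by_cases hl : l < i
    · rw [ih l hl (by omega), C.comp_zero, C.comp_zero]
    · have e4 : C.comp (C.comp (π i) (π' j)) (π l) = 0 := by
        have e5 : π' j = π j + (π' j - π j) := by abel
        rw [e5, C.comp_add, C.add_comp]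
        have e6 : C.comp (C.comp (π i) (π j)) (π l) = 0 := by
          rw [h.orth i j (by omega), C.zero_comp]
        have e7 : C.comp (C.comp (π i) (π' j - π j)) (π l) = 0 :=
          hU _ (Submodule.sub_mem (CHiL _ _) (h'.mem j) (h.mem j)) hn i l (by omega)
        rw [e6, e7, add_zero]
      rw [← C.comp_assoc (π' j), ← C.comp_assoc (π i), ← C.comp_assoc (π i), e4, C.zero_comp]

lemma act_eq_sum (h : C.IsCK X π) (a : CH X) :
    a = ∑ l ∈ Finset.range (2 * X.dim + 1), C.act (π l) a := by
  rw [← act_sum, h.sum, C.act_Δ]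

/-- If `π' j ∘ π i = 0` for `i < j`, then a class killed by all `π l`, `l ≥ j`, is killed by
`π' j`. -/
lemma act_zero_of (h : C.IsCK X π) (h'' : ∀ i j, i < j → C.comp (π i) (π' j) = 0) (j : ℕ)
    (a : CH X) (ha : ∀ l, j ≤ l → C.act (π l) a = 0) : C.act (π' j) a = 0 := by
  rw [act_eq_sum h a, ← C.actL_apply, map_sum]
  refine Finset.sum_eq_zero fun l _ => ?_
  rw [C.actL_apply]
  by_cases hl : l < j
  · rw [← C.act_comp, h'' l j hl, C.act_zero']
  · rw [ha l (by omega), C.act_zero]

/-- (D) carries over. -/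
theorem murreD_of_upper (h : C.IsCK X π) (h' : C.IsCK X π') (hU : Upper C X π) (i : ℕ)
    (hD : C.MurreD X π i) : C.MurreD X π' i := by
  rw [murreD_iff h] at hD
  rw [murreD_iff h']
  intro a ha hcl j hj
  exact act_zero_of h (fun i j hij => comp_upper' h h' hU j i hij) j a
    fun l hl => hD a ha hcl l (by omega)

/-- Description of the filtration. -/
lemma mem_F_iff (h : C.IsCK X π) (ν i : ℕ) (a : CH X) :
    a ∈ C.F X π ν i ↔ a ∈ CHi X i ∧ ∀ l, 2 * i < l + ν → C.act (π l) a = 0 := by
  constructor
  · rintro ⟨b, hb, rfl⟩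
    refine ⟨C.act_mem _ (Submodule.sum_mem (CHiL _ _) fun l _ => h.mem l) _ _ hb,
      fun l hl => ?_⟩
    rw [act_sum, ← C.actL_apply (π l), map_sum]
    refine Finset.sum_eq_zero fun j hj => ?_
    rw [Finset.mem_filter] at hj
    rw [C.actL_apply, ← C.act_comp, h.orth j l (by omega), C.act_zero']
  · rintro ⟨ha, hl⟩
    refine ⟨a, ha, ?_⟩
    rw [act_sum]
    conv_rhs => rw [act_eq_sum h a]
    refine Finset.sum_subset (Finset.filter_subset _ _) fun l hl1 hl2 => ?_
    rw [Finset.mem_filter, not_and] at hl2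
    have := hl2 hl1
    exact hl l (by omega)

/-- The filtrations agree. -/
theorem F_eq_of_upper (h : C.IsCK X π) (h' : C.IsCK X π') (hU : Upper C X π) (ν i : ℕ) :
    C.F X π' ν i = C.F X π ν i := by
  have h1 : ∀ i j, i < j → C.comp (π i) (π' j) = 0 := fun i j hij => comp_upper' h h' hU j i hij
  have h2 : ∀ i j, i < j → C.comp (π' i) (π j) = 0 := fun i j hij =>
    comp_upper h h' hU i (2 * X.dim + 1) j hij (by omega)
  ext a
  rw [mem_F_iff h, mem_F_iff h']
  constructor
  · rintro ⟨ha, hl⟩
    exact ⟨ha, fun l hl' => act_zero_of h' h2 l a fun m hm => hl m (by omega)⟩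
  · rintro ⟨ha, hl⟩
    exact ⟨ha, fun l hl' => act_zero_of h h1 l a fun m hm => hl m (by omega)⟩

/-! ### the product -/

/-- The action of the product decomposition. -/
lemma act_prodDec (n : ℕ) (γ : CH (X.prod X)) :
    C.act (prodDec C (dual C X π) π n) γ = ∑ a ∈ Finset.range (n + 1),
      C.comp (C.comp (transpose C (dual C X π a)) γ) (π (n - a)) := by
  unfold prodDec
  rw [act_sum]
  exact Finset.sum_congr rfl fun a _ => act_extCorr C _ _ _

lemma transpose_dual (i : ℕ) (hi : i ≤ 2 * X.dim) :
    transpose C (dual C X π (2 * X.dim - i)) = π i := by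
  unfold dual
  rw [if_pos (by omega), transpose_transpose]
  congr 1
  omega

/-- (D) in codimension `dim X` for the product decomposition. -/
theorem upper_of_murreD (h : C.IsCK X π)
    (hD : C.MurreD (X.prod X) (prodDec C (dual C X π) π) X.dim) : Upper C X π := by
  rw [murreD_iff (prod_isCK (dual_isCK h) h)] at hD
  intro z hz hcl i b hib
  by_cases hi : i ≤ 2 * X.dim
  · have h1 := hD z hz hcl (2 * X.dim - i + b) (by omega)
    rw [act_prodDec] at h1
    have h2 := congrArg (fun γ => C.comp (C.comp (π i) γ) (π b)) h1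
    rw [comp_sum, sum_comp, C.comp_zero, C.zero_comp, Finset.sum_eq_single (2 * X.dim - i)] at h2
    · rw [transpose_dual i hi, Nat.add_sub_cancel_left, C.comp_assoc (π i) z (π b),
        ← C.comp_assoc (π i) (π i), h.idem, C.comp_assoc, C.comp_assoc, h.idem,
        ← C.comp_assoc] at h2
      exact h2
    · intro a _ ha
      by_cases ha' : a ≤ 2 * X.dim
      · have e1 : transpose C (dual C X π a) = π (2 * X.dim - a) := by
          rw [← transpose_dual (C := C) (π := π) (2 * X.dim - a) (by omega)]
          congr 2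
          omega
        rw [e1, C.comp_assoc (π (2 * X.dim - a)) z, ← C.comp_assoc (π i),
          h.orth _ _ (by omega), C.zero_comp, C.zero_comp]
      · have e1 : dual C X π a = 0 := by unfold dual; rw [if_neg ha']
        rw [e1, transpose_zero, C.zero_comp, C.zero_comp, C.comp_zero, C.zero_comp]
    · intro hh
      exact absurd (Finset.mem_range.2 (by omega)) hh
  · rw [h.zero i (by omega), C.zero_comp, C.zero_comp]

/-- (D) in codimension `i` for `X` from (D) in codimension `i` for the product decomposition. -/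
theorem murreD_of_prod (h : C.IsCK X π) (i : ℕ)
    (hD : C.MurreD (X.prod X) (prodDec C (dual C X π) π) i) : C.MurreD X π i := by
  rw [murreD_iff (prod_isCK (dual_isCK h) h)] at hD
  rw [murreD_iff h]
  intro α hα hcl b hb
  set γ : CH (X.prod X) := extProd C (one X) α with hγ
  have hγm : γ ∈ CHi (X.prod X) i := by
    have := extProd_mem (C := C) (ChowTheory.one_mem_iff (pointDim_genericPt W X)) hα
    rw [zero_add] at this
    exact this
  have hγ0 : C.cl _ γ = 0 := by
    rw [hγ, cl_extProd, hcl, ChowTheory.pull_zero, mul_zero]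
  have hdual : C.IsCK X (dual C X π) := dual_isCK h
  -- each term
  have hterm : ∀ a, extProd C (C.act (dual C X π a) (one X)) (C.act (π b) α) = 0 := by
    intro a
    have h1 := hD γ hγm hγ0 (a + b) (by omega)
    rw [act_prodDec] at h1
    have h2 := congrArg (fun γ => C.comp γ (π b)) h1
    rw [sum_comp, C.zero_comp, Finset.sum_eq_single a] at h2
    · rw [Nat.add_sub_cancel_left, C.comp_assoc, h.idem, hγ, comp_extProd_left,
        transpose_transpose, comp_extProd] at h2
      exact h2
    · intro l hl hla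
      rw [Finset.mem_range] at hl
      rw [C.comp_assoc, h.orth _ _ (by omega), C.comp_zero]
    · intro hh
      exact absurd (Finset.mem_range.2 (by omega)) hh
  apply extProd_one_injective C
  rw [act_eq_sum hdual (one X), extProd_sum_left]
  exact Finset.sum_eq_zero fun a _ => hterm a

end Pool.Agent.Helper32.Murre
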