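import Pool.Agent.Helper32.Murre.Def
import Pool.Agent.Helper32.Murre.Ring

/-!
# Murre's conjecture (D) and self-products

Let `π` be a Chow-Künneth decomposition of `X`.  If the single decomposition `Π = π^∨ × π` of
`X × X` satisfies (D) in codimension `dim X`, then all Chow-Künneth decompositions of `X` induce
the same filtration; if moreover `Π` satisfies (D) in codimension `i`, then all of them satisfy
(D) in codimension `i`.  So Murre's conjecture (D), for all decompositions of all varieties, is
equivalent to (D) for one product decomposition of `X × X` for each `X`.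
-/

universe u v w

open CategoryTheory AlgebraicGeometry Limits

namespace Pool.Agent.Results.MP_583472_ag.SelfProductCriterion

open Pool.Agent.Helper10 Pool.Agent.Helper10.SmProjVar Pool.Agent.Helper47.Chow
open Pool.Agent.Helper32.Murre

theorem result {k : Type u} [Field k] {K : Type v} [Field K] [CharZero K]
    {W : WeilCohomology.{u, v, w} k K} (C : ChowTheory W) :
    (∀ (X : SmProjVar k) (π : ℕ → CH (X.prod X)), C.IsCK X π →
      C.IsCK (X.prod X) (prodDec C (dual C X π) π) ∧
      (C.MurreD (X.prod X) (prodDec C (dual C X π) π) X.dim →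
        ∀ π', C.IsCK X π' → (∀ ν i, C.F X π' ν i = C.F X π ν i) ∧
          ∀ i, C.MurreD (X.prod X) (prodDec C (dual C X π) π) i → C.MurreD X π' i)) ∧
    ((∀ (X : SmProjVar k) (π : ℕ → CH (X.prod X)), C.IsCK X π → ∀ i, C.MurreD X π i) ↔
      ∀ X : SmProjVar k, (∃ π, C.IsCK X π) → ∃ π, C.IsCK X π ∧
        ∀ i, C.MurreD (X.prod X) (prodDec C (dual C X π) π) i) := by
  have key : ∀ (X : SmProjVar k) (π : ℕ → CH (X.prod X)), C.IsCK X π →
      C.IsCK (X.prod X) (prodDec C (dual C X π) π) ∧
      (C.MurreD (X.prod X) (prodDec C (dual C X π) π) X.dim →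
        ∀ π', C.IsCK X π' → (∀ ν i, C.F X π' ν i = C.F X π ν i) ∧
          ∀ i, C.MurreD (X.prod X) (prodDec C (dual C X π) π) i → C.MurreD X π' i) := by
    intro X π h
    refine ⟨prod_isCK (dual_isCK h) h, fun hd π' h' => ?_⟩
    have hU := upper_of_murreD h hd
    exact ⟨fun ν i => F_eq_of_upper h h' hU ν i,
      fun i hi => murreD_of_upper h h' hU i (murreD_of_prod h i hi)⟩
  refine ⟨key, fun H X hX => ?_, fun H X π' h' i => ?_⟩
  · obtain ⟨π, h⟩ := hX
    exact ⟨π, h, fun i => H _ _ (key X π h).1 i⟩
  · obtain ⟨π, h, hD⟩ := H X ⟨π', h'⟩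
    exact ((key X π h).2 (hD _) π' h').2 i (hD i)

end Pool.Agent.Results.MP_583472_ag.SelfProductCriterion
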